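import Pool.Agent.helper69.AD.GS1

/-! Module ag:BD5 (an element with three fixed points is trivial). -/

open scoped MatrixGroups LinearAlgebra.Projectivization
open Matrix UpperHalfPlane

namespace AdSBend

theorem BD5_smul_vec (g : SL(2, ℝ)) (v : Fin 2 → ℝ) : g • v = g.1 *ᵥ v := rfl

theorem BD5_fix (g : SL(2, ℝ)) (u : Fin 2 → ℝ) (hu : u ≠ 0)
    (h : g • (Projectivization.mk ℝ u hu) = Projectivization.mk ℝ u hu) :
    ∃ a : ℝ, g.1 *ᵥ u = a • u := by
  rw [Projectivization.smul_mk, Projectivization.mk_eq_mk_iff'] at h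
  obtain ⟨a, ha⟩ := h
  exact ⟨a, by rw [← BD5_smul_vec, ← ha]⟩

theorem BD5_dt_ne (u v : Fin 2 → ℝ) (hu : u ≠ 0) (hv : v ≠ 0)
    (h : Projectivization.mk ℝ u hu ≠ Projectivization.mk ℝ v hv) : dt u v ≠ 0 := by
  intro h0
  apply h
  rw [Projectivization.mk_eq_mk_iff']
  unfold dt at h0
  by_cases h1 : v 0 = 0
  · have h2 : v 1 ≠ 0 := by
      intro h3
      apply hv
      ext i
      fin_cases i <;> simp [h1, h3]
    refine ⟨u 1 / v 1, ?_⟩
    have h4 : u 0 = 0 := by
      have : u 0 * v 1 = 0 := by rw [h1] at h0; linarith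
      rcases mul_eq_zero.mp this with h5 | h5
      · exact h5
      · exact absurd h5 h2
    ext i
    fin_cases i
    · simp [h1, h4]
    · simp only [Fin.mk_one, Pi.smul_apply, smul_eq_mul]
      field_simp
  · refine ⟨u 0 / v 0, ?_⟩
    ext i
    fin_cases i
    · simp only [Fin.zero_eta, Pi.smul_apply, smul_eq_mul]
      field_simp
    · simp only [Fin.mk_one, Pi.smul_apply, smul_eq_mul]
      field_simp
      linarith

theorem BD5_entries (g : SL(2, ℝ)) (u : Fin 2 → ℝ) (a : ℝ) (h : g.1 *ᵥ u = a • u) :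
    g.1 0 0 * u 0 + g.1 0 1 * u 1 = a * u 0 ∧ g.1 1 0 * u 0 + g.1 1 1 * u 1 = a * u 1 := by
  constructor
  · have := congrFun h 0
    simpa [Matrix.mulVec, dotProduct, Fin.sum_univ_two] using this
  · have := congrFun h 1
    simpa [Matrix.mulVec, dotProduct, Fin.sum_univ_two] using this

theorem BD5 : BD5_stmt := by
  intro g x y z hxy hyz hzx hx hy hz
  induction x using Projectivization.ind with | h u hu =>
  induction y using Projectivization.ind with | h v hv =>
  induction z using Projectivization.ind with | h w hw =>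
  have d1 := BD5_dt_ne u v hu hv hxy
  have d2 := BD5_dt_ne v w hv hw hyz
  have d3 := BD5_dt_ne w u hw hu hzx
  obtain ⟨a, ha⟩ := BD5_fix g u hu hx
  obtain ⟨b, hb⟩ := BD5_fix g v hv hy
  obtain ⟨c, hc⟩ := BD5_fix g w hw hz
  obtain ⟨a0, a1⟩ := BD5_entries g u a ha
  obtain ⟨b0, b1⟩ := BD5_entries g v b hb
  obtain ⟨c0, c1⟩ := BD5_entries g w c hc
  have hdet : g.1 0 0 * g.1 1 1 - g.1 0 1 * g.1 1 0 = 1 := by
    have := g.2
    rwa [Matrix.det_fin_two] at this
  set p := g.1 0 0 with hp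
  set q := g.1 0 1 with hq
  set r := g.1 1 0 with hr
  set s := g.1 1 1 with hs
  unfold dt at d1 d2 d3
  have e1 : c * ((w 0 * v 1 - w 1 * v 0) * (u 0 * v 1 - u 1 * v 0)) =
      a * ((w 0 * v 1 - w 1 * v 0) * (u 0 * v 1 - u 1 * v 0)) := by
    linear_combination (-(v 1) * c0 + v 0 * c1) * (u 0 * v 1 - u 1 * v 0)
      + (w 0 * v 1 - w 1 * v 0) * (v 1 * a0 - v 0 * a1)
      + ((w 1 * u 0 - w 0 * u 1)) * (v 1 * b0 - v 0 * b1)
  have e2 : c * ((u 0 * w 1 - u 1 * w 0) * (u 0 * v 1 - u 1 * v 0)) =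
      b * ((u 0 * w 1 - u 1 * w 0) * (u 0 * v 1 - u 1 * v 0)) := by
    linear_combination (-(u 0) * c1 + u 1 * c0) * (u 0 * v 1 - u 1 * v 0)
      + (u 0 * w 1 - u 1 * w 0) * (u 0 * b1 - u 1 * b0)
      + ((w 0 * v 1 - w 1 * v 0)) * (u 0 * a1 - u 1 * a0)
  have hca : c = a := by
    apply mul_right_cancel₀ _ e1
    apply mul_ne_zero _ d1
    intro h
    apply d2
    linarith
  have hcb : c = b := by
    apply mul_right_cancel₀ _ e2
    apply mul_ne_zero _ d1
    intro h
    apply d3
    linarith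
  have hab : a = b := by rw [← hca, hcb]
  rw [← hab] at b0 b1
  have f0 : (p - a) * (u 0 * v 1 - u 1 * v 0) = 0 := by
    linear_combination v 1 * a0 - u 1 * b0
  have f1 : q * (u 0 * v 1 - u 1 * v 0) = 0 := by
    linear_combination (-v 0) * a0 + u 0 * b0
  have f2 : r * (u 0 * v 1 - u 1 * v 0) = 0 := by
    linear_combination v 1 * a1 - u 1 * b1
  have f3 : (s - a) * (u 0 * v 1 - u 1 * v 0) = 0 := by
    linear_combination (-v 0) * a1 + u 0 * b1
  have g0 : p = a := by
    rcases mul_eq_zero.mp f0 with h | h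
    · linarith
    · exact absurd h d1
  have g1 : q = 0 := by
    rcases mul_eq_zero.mp f1 with h | h
    · exact h
    · exact absurd h d1
  have g2 : r = 0 := by
    rcases mul_eq_zero.mp f2 with h | h
    · exact h
    · exact absurd h d1
  have g3 : s = a := by
    rcases mul_eq_zero.mp f3 with h | h
    · linarith
    · exact absurd h d1
  have hsq : a * a = 1 := by
    rw [g0, g1, g2, g3] at hdet
    linarith
  rcases mul_self_eq_one_iff.mp hsq with h1 | h1
  · rw [h1] at g0 g3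
    left
    ext i j
    fin_cases i <;> fin_cases j
    · simpa using hp ▸ g0
    · simpa using hq ▸ g1
    · simpa using hr ▸ g2
    · simpa using hs ▸ g3
  · rw [h1] at g0 g3
    right
    ext i j
    fin_cases i <;> fin_cases j
    · simpa using hp ▸ g0
    · simpa using hq ▸ g1
    · simpa using hr ▸ g2
    · simpa using hs ▸ g3

end AdSBend
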