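import Pool.Agent.helper69.AD.GS1

/-! Module ag:BD6 (frames). -/

open scoped MatrixGroups LinearAlgebra.Projectivization
open Matrix UpperHalfPlane

namespace AdSBend

theorem BD6_smul_vec (g : SL(2, ℝ)) (v : Fin 2 → ℝ) : g • v = g.1 *ᵥ v := rfl

theorem BD6_inf_ne_zero : bInf ≠ bZero := by
  unfold bInf bZero
  intro h
  rw [Projectivization.mk_eq_mk_iff'] at h
  obtain ⟨a, ha⟩ := h
  have := congrFun ha 0
  simp at this

/-- the vectors `g e` for the basis -/
theorem BD6_smul_inf (g : SL(2, ℝ)) (u : Fin 2 → ℝ) (hu : u ≠ 0) (c : ℝ)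
    (h0 : g.1 0 0 = c * u 0) (h1 : g.1 1 0 = c * u 1) :
    g • bInf = Projectivization.mk ℝ u hu := by
  unfold bInf
  rw [Projectivization.smul_mk, Projectivization.mk_eq_mk_iff']
  refine ⟨c, ?_⟩
  rw [BD6_smul_vec]
  ext i
  fin_cases i
  · simp [Matrix.mulVec, dotProduct, Fin.sum_univ_two, h0]
  · simp [Matrix.mulVec, dotProduct, Fin.sum_univ_two, h1]

theorem BD6_smul_zero (g : SL(2, ℝ)) (u : Fin 2 → ℝ) (hu : u ≠ 0) (c : ℝ)
    (h0 : g.1 0 1 = c * u 0) (h1 : g.1 1 1 = c * u 1) :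
    g • bZero = Projectivization.mk ℝ u hu := by
  unfold bZero
  rw [Projectivization.smul_mk, Projectivization.mk_eq_mk_iff']
  refine ⟨c, ?_⟩
  rw [BD6_smul_vec]
  ext i
  fin_cases i
  · simp [Matrix.mulVec, dotProduct, Fin.sum_univ_two, h0]
  · simp [Matrix.mulVec, dotProduct, Fin.sum_univ_two, h1]

theorem BD6_dt_ne (u v : Fin 2 → ℝ) (hu : u ≠ 0) (hv : v ≠ 0)
    (h : Projectivization.mk ℝ u hu ≠ Projectivization.mk ℝ v hv) :
    u 0 * v 1 - v 0 * u 1 ≠ 0 := by
  intro h0
  apply h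
  rw [Projectivization.mk_eq_mk_iff']
  by_cases h1 : v 0 = 0
  · have h2 : v 1 ≠ 0 := by
      intro h3
      apply hv
      ext i
      fin_cases i <;> simp [h1, h3]
    refine ⟨u 1 / v 1, ?_⟩
    have h4 : u 0 = 0 := by
      have : u 0 * v 1 = 0 := by rw [h1] at h0; linarith
      rcases mul_eq_zero.mp this with h5 | h5
      · exact h5
      · exact absurd h5 h2
    ext i
    fin_cases i
    · simp [h1, h4]
    · simp only [Fin.mk_one, Pi.smul_apply, smul_eq_mul]
      field_simp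
  · refine ⟨u 0 / v 0, ?_⟩
    ext i
    fin_cases i
    · simp only [Fin.zero_eta, Pi.smul_apply, smul_eq_mul]
      field_simp
    · simp only [Fin.mk_one, Pi.smul_apply, smul_eq_mul]
      field_simp
      linarith

theorem BD6_exists (p : Bd × Bd) (hp : p.1 ≠ p.2) : ∃ F, IsFrame F p := by
  obtain ⟨x, y⟩ := p
  simp only at hp
  induction x using Projectivization.ind with | h u hu =>
  induction y using Projectivization.ind with | h v hv =>
  have hd := BD6_dt_ne u v hu hv hp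
  set d := u 0 * v 1 - v 0 * u 1 with hdd
  refine ⟨⟨!![u 0 / d, v 0; u 1 / d, v 1], ?_⟩, ?_, ?_⟩
  · rw [Matrix.det_fin_two_of]
    field_simp
    rw [hdd]
  · apply BD6_smul_inf _ u hu d⁻¹
    · simp [div_eq_inv_mul]
    · simp [div_eq_inv_mul]
  · apply BD6_smul_zero _ v hv 1
    · simp
    · simp

theorem BD6_Dm_inf (t : ℝ) : Dm t • bInf = bInf := by
  unfold bInf
  rw [Projectivization.smul_mk, Projectivization.mk_eq_mk_iff']
  refine ⟨Real.exp (t / 2), ?_⟩
  rw [BD6_smul_vec]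
  ext i
  fin_cases i <;> simp [Dm, Matrix.mulVec, dotProduct, Fin.sum_univ_two]

theorem BD6_Dm_zero (t : ℝ) : Dm t • bZero = bZero := by
  unfold bZero
  rw [Projectivization.smul_mk, Projectivization.mk_eq_mk_iff']
  refine ⟨Real.exp (-(t / 2)), ?_⟩
  rw [BD6_smul_vec]
  ext i
  fin_cases i <;> simp [Dm, Matrix.mulVec, dotProduct, Fin.sum_univ_two]

theorem BD6_Rm_inf : Rm • bInf = bZero := by
  unfold bInf bZero
  rw [Projectivization.smul_mk, Projectivization.mk_eq_mk_iff']
  refine ⟨-1, ?_⟩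
  rw [BD6_smul_vec]
  ext i
  fin_cases i <;> simp [Rm, Matrix.mulVec, dotProduct, Fin.sum_univ_two]

theorem BD6_Rm_zero : Rm • bZero = bInf := by
  unfold bInf bZero
  rw [Projectivization.smul_mk, Projectivization.mk_eq_mk_iff']
  refine ⟨1, ?_⟩
  rw [BD6_smul_vec]
  ext i
  fin_cases i <;> simp [Rm, Matrix.mulVec, dotProduct, Fin.sum_univ_two]

theorem BD6_neg_smul (g : SL(2, ℝ)) (x : Bd) : (-g) • x = g • x := by
  induction x using Projectivization.ind with | h u hu =>
  rw [Projectivization.smul_mk, Projectivization.smul_mk, Projectivization.mk_eq_mk_iff']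
  refine ⟨-1, ?_⟩
  rw [BD6_smul_vec, BD6_smul_vec, Matrix.SpecialLinearGroup.coe_neg, Matrix.neg_mulVec]
  simp

/-- an element that fixes the two base points -/
theorem BD6_diag (g : SL(2, ℝ)) (h1 : g • bInf = bInf) (h2 : g • bZero = bZero) :
    ∃ t, PEq g (Dm t) := by
  unfold bInf at h1
  unfold bZero at h2
  rw [Projectivization.smul_mk, Projectivization.mk_eq_mk_iff'] at h1 h2
  obtain ⟨a, ha⟩ := h1
  obtain ⟨b, hb⟩ := h2
  rw [BD6_smul_vec] at ha hb
  have a0 : g.1 0 0 = a := by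
    have := congrFun ha 0
    simpa [Matrix.mulVec, dotProduct, Fin.sum_univ_two] using this.symm
  have a1 : g.1 1 0 = 0 := by
    have := congrFun ha 1
    simpa [Matrix.mulVec, dotProduct, Fin.sum_univ_two] using this.symm
  have b0 : g.1 0 1 = 0 := by
    have := congrFun hb 0
    simpa [Matrix.mulVec, dotProduct, Fin.sum_univ_two] using this.symm
  have b1 : g.1 1 1 = b := by
    have := congrFun hb 1
    simpa [Matrix.mulVec, dotProduct, Fin.sum_univ_two] using this.symm
  have hdet : a * b = 1 := by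
    have := g.2
    rw [Matrix.det_fin_two, a0, a1, b0, b1] at this
    linarith
  have ha0 : a ≠ 0 := by
    intro h
    rw [h] at hdet
    simp at hdet
  have habs : 0 < |a| := abs_pos.mpr ha0
  have e1 : Real.exp (2 * Real.log |a| / 2) = |a| := by
    rw [mul_div_cancel_left₀ _ (two_ne_zero), Real.exp_log habs]
  have e2 : Real.exp (-(2 * Real.log |a| / 2)) = |a|⁻¹ := by
    rw [Real.exp_neg, e1]
  have hb' : b = a⁻¹ := by
    field_simp
    linarith
  refine ⟨2 * Real.log |a|, ?_⟩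
  rcases lt_or_gt_of_ne ha0 with h | h
  · right
    ext i j
    rw [Matrix.SpecialLinearGroup.coe_neg]
    fin_cases i <;> fin_cases j
    · simp only [Dm, Fin.zero_eta, Matrix.neg_apply, Matrix.of_apply, Matrix.cons_val_zero,
        Matrix.cons_val', Matrix.cons_val_fin_one]
      rw [a0, e1, abs_of_neg h]; ring
    · simpa [Dm] using b0
    · simpa [Dm] using a1
    · simp only [Dm, Fin.mk_one, Matrix.neg_apply, Matrix.of_apply, Matrix.cons_val_one,
        Matrix.cons_val', Matrix.cons_val_fin_one]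
      rw [b1, e2, abs_of_neg h, hb']
      rw [inv_neg]; ring
  · left
    ext i j
    fin_cases i <;> fin_cases j
    · simp only [Dm, Fin.zero_eta, Matrix.of_apply, Matrix.cons_val_zero,
        Matrix.cons_val', Matrix.cons_val_fin_one]
      rw [a0, e1, abs_of_pos h]
    · simpa [Dm] using b0
    · simpa [Dm] using a1
    · simp only [Dm, Fin.mk_one, Matrix.of_apply, Matrix.cons_val_one,
        Matrix.cons_val', Matrix.cons_val_fin_one]
      rw [b1, e2, abs_of_pos h, hb']

theorem BD6 : BD6_stmt := by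
  refine ⟨BD6_exists, ?_, ?_, ?_, ?_, ?_, ?_⟩
  · rintro F p ⟨h1, h2⟩ h
    rw [← h1, ← h2] at h
    exact BD6_inf_ne_zero ((MulAction.injective F) h)
  · rintro F F' p ⟨h1, h2⟩ ⟨h3, h4⟩
    obtain ⟨t, ht⟩ := BD6_diag (F⁻¹ * F')
      (by rw [mul_smul, h3, ← h1, inv_smul_smul]) (by rw [mul_smul, h4, ← h2, inv_smul_smul])
    refine ⟨t, ?_⟩
    rcases ht with ht | ht
    · left
      rw [← ht, mul_inv_cancel_left]
    · right
      have : F' = F * (F⁻¹ * F') := by rw [mul_inv_cancel_left]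
      rw [this, ht, mul_neg]
  · rintro F p t ⟨h1, h2⟩
    exact ⟨by rw [mul_smul, BD6_Dm_inf, h1], by rw [mul_smul, BD6_Dm_zero, h2]⟩
  · rintro F p ⟨h1, h2⟩
    exact ⟨by rw [mul_smul, BD6_Rm_inf, h2], by rw [mul_smul, BD6_Rm_zero, h1]⟩
  · rintro F g p ⟨h1, h2⟩
    exact ⟨by rw [mul_smul, h1], by rw [mul_smul, h2]⟩
  · rintro F p ⟨h1, h2⟩
    exact ⟨by rw [BD6_neg_smul, h1], by rw [BD6_neg_smul, h2]⟩

end AdSBend
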